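import Pool.Agent.H84.ND.Targets2

/-! NCH: data at a node exist. -/

set_option autoImplicit false

namespace Pool.Agent.H92.ND

open MvPolynomial Pool.Agent.H84.SM Pool.Agent.H84.ND

namespace NCH

variable {k : Type} [Field k]

theorem pcomm (i j : Fin 3) (f : MvPolynomial (Fin 3) k) :
    pderiv i (pderiv j f) = pderiv j (pderiv i f) := by
  classical
  have h : ⁅(pderiv i : Derivation k (MvPolynomial (Fin 3) k) (MvPolynomial (Fin 3) k)),
      (pderiv j : Derivation k (MvPolynomial (Fin 3) k) (MvPolynomial (Fin 3) k))⁆ = 0 := by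
    apply derivation_ext
    intro s
    rw [Derivation.commutator_apply, pderiv_X, pderiv_X, Pi.single_apply, Pi.single_apply]
    split_ifs <;> simp
  have h2 := congrArg (fun D => D f) h
  simp only [Derivation.commutator_apply, Derivation.coe_zero, Pi.zero_apply] at h2
  exact sub_eq_zero.mp h2

theorem sum3 {M : Type*} [AddCommMonoid M] (f : Fin 3 → M) (j : Fin 3) :
    ∑ i, f i = f j + f (j + 1) + f (j + 2) := by
  fin_cases j
  · exact Fin.sum_univ_three f
  · have h : ∑ i, f i = f 1 + f 2 + f 0 := by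
      rw [Fin.sum_univ_three, add_comm (f 0) (f 1), add_right_comm]
    exact h
  · have h : ∑ i, f i = f 2 + f 0 + f 1 := by
      rw [Fin.sum_univ_three, add_comm (f 0 + f 1) (f 2), add_assoc]
    exact h

theorem three : ∀ i j : Fin 3, i = j ∨ i = j + 1 ∨ i = j + 2 := by decide

/-- the linear forms vanishing at `s` -/
noncomputable def L (s : Fin 3 → k) (j c : Fin 3) : MvPolynomial (Fin 3) k :=
  C (s j) * X c - C (s c) * X j

/-- derivative in the direction `s` -/
noncomputable def E (s : Fin 3 → k) (f : MvPolynomial (Fin 3) k) : MvPolynomial (Fin 3) k :=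
  ∑ i, C (s i) * pderiv i f

theorem euler (s : Fin 3 → k) (j : Fin 3) {f : MvPolynomial (Fin 3) k} {n : ℕ}
    (hf : f.IsHomogeneous n) :
    C (s j * (n : k)) * f = L s j (j + 1) * pderiv (j + 1) f + L s j (j + 2) * pderiv (j + 2) f +
      X j * E s f := by
  have h := hf.sum_X_mul_pderiv
  rw [sum3 _ j, nsmul_eq_mul] at h
  have h1 : (C (s j * (n : k)) : MvPolynomial (Fin 3) k) * f = C (s j) * ((n : MvPolynomial (Fin 3) k) * f) := by
    rw [C_mul, map_natCast]; ring
  rw [h1, ← h]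
  unfold L E
  rw [sum3 _ j]
  ring

theorem E_hom (s : Fin 3 → k) {f : MvPolynomial (Fin 3) k} {n : ℕ} (hf : f.IsHomogeneous n) :
    (E s f).IsHomogeneous (n - 1) := by
  refine IsHomogeneous.sum _ _ _ fun i _ => ?_
  have h := (isHomogeneous_C (Fin 3) (s i)).mul (hf.pderiv (i := i))
  rwa [zero_add] at h

theorem eval_euler (s : Fin 3 → k) {f : MvPolynomial (Fin 3) k} {n : ℕ}
    (hf : f.IsHomogeneous n) : ∑ i, s i * eval s (pderiv i f) = (n : k) * eval s f := by
  have h := congrArg (eval s) hf.sum_X_mul_pderiv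
  rw [map_sum, map_nsmul, nsmul_eq_mul] at h
  rw [← h]
  refine Finset.sum_congr rfl fun i _ => ?_
  rw [map_mul, eval_X]

theorem E_eval (s : Fin 3 → k) (f : MvPolynomial (Fin 3) k) :
    eval s (E s f) = ∑ i, s i * eval s (pderiv i f) := by
  unfold E
  rw [map_sum]
  refine Finset.sum_congr rfl fun i _ => ?_
  rw [map_mul, eval_C]

theorem E_pderiv (s : Fin 3 → k) (l : Fin 3) (f : MvPolynomial (Fin 3) k) :
    pderiv l (E s f) = E s (pderiv l f) := by
  unfold E
  rw [map_sum]
  refine Finset.sum_congr rfl fun i _ => ?_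
  rw [pderiv_C_mul, pcomm]

/-- the ideal of the point `s` -/
noncomputable def I (s : Fin 3 → k) (j : Fin 3) : Ideal (MvPolynomial (Fin 3) k) :=
  Ideal.span {L s j (j + 1), L s j (j + 2)}

theorem La_mem (s : Fin 3 → k) (j : Fin 3) : L s j (j + 1) ∈ I s j :=
  Ideal.subset_span (Set.mem_insert _ _)

theorem Lb_mem (s : Fin 3 → k) (j : Fin 3) : L s j (j + 2) ∈ I s j :=
  Ideal.subset_span (Set.mem_insert_of_mem _ rfl)

theorem const_zero {s : Fin 3 → k} {f : MvPolynomial (Fin 3) k} (hf : f.IsHomogeneous 0)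
    (h0 : eval s f = 0) : f = 0 := by
  have h : f = C (coeff 0 f) := by
    exact totalDegree_eq_zero_iff_eq_C.1 (Nat.le_zero.1 hf.totalDegree_le)
  rw [h, eval_C] at h0
  rw [h, h0, C_0]

theorem mem_of_smul {J : Ideal (MvPolynomial (Fin 3) k)} {c : k} (hc : c ≠ 0)
    {f : MvPolynomial (Fin 3) k} (h : C c * f ∈ J) : f ∈ J := by
  have h1 := J.mul_mem_left (C c⁻¹) h
  rwa [← mul_assoc, ← C_mul, inv_mul_cancel₀ hc, C_1, one_mul] at h1

theorem mem_I [CharZero k] (s : Fin 3 → k) (j : Fin 3) (hj : s j ≠ 0) : ∀ (n : ℕ)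
    (f : MvPolynomial (Fin 3) k), f.IsHomogeneous n → eval s f = 0 → f ∈ I s j := by
  intro n
  induction n with
  | zero => intro f hf h0; rw [const_zero hf h0]; exact Ideal.zero_mem _
  | succ n ih =>
    intro f hf h0
    have h1 := euler s j hf
    have hn : s j * ((n + 1 : ℕ) : k) ≠ 0 := mul_ne_zero hj (Nat.cast_ne_zero.2 (Nat.succ_ne_zero n))
    refine mem_of_smul hn ?_
    rw [h1]
    refine Ideal.add_mem _ (Ideal.add_mem _ ?_ ?_) ?_
    · exact Ideal.mul_mem_right _ _ (La_mem s j)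
    · exact Ideal.mul_mem_right _ _ (Lb_mem s j)
    · refine Ideal.mul_mem_left _ _ (ih _ (E_hom s hf) ?_)
      rw [E_eval, eval_euler s hf, h0, mul_zero]

theorem mem_I2 [CharZero k] (s : Fin 3 → k) (j : Fin 3) (hj : s j ≠ 0) : ∀ (n : ℕ)
    (f : MvPolynomial (Fin 3) k), f.IsHomogeneous n → eval s f = 0 →
    (∀ i, eval s (pderiv i f) = 0) → f ∈ I s j * I s j := by
  intro n
  induction n with
  | zero => intro f hf h0 _; rw [const_zero hf h0]; exact Ideal.zero_mem _
  | succ n ih =>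
    intro f hf h0 h1
    have h2 := euler s j hf
    have hn : s j * ((n + 1 : ℕ) : k) ≠ 0 := mul_ne_zero hj (Nat.cast_ne_zero.2 (Nat.succ_ne_zero n))
    refine mem_of_smul hn ?_
    rw [h2]
    refine Ideal.add_mem _ (Ideal.add_mem _ ?_ ?_) ?_
    · exact Ideal.mul_mem_mul (La_mem s j) (mem_I s j hj _ _ (hf.pderiv) (h1 _))
    · exact Ideal.mul_mem_mul (Lb_mem s j) (mem_I s j hj _ _ (hf.pderiv) (h1 _))
    · refine Ideal.mul_mem_left _ _ (ih _ (E_hom s hf) ?_ ?_)
      · rw [E_eval, eval_euler s hf, h0, mul_zero]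
      · intro l
        rw [E_pderiv, E_eval, eval_euler s (hf.pderiv), h1 l, mul_zero]

theorem det_ne [CharZero k] {G : MvPolynomial (Fin 3) k} {d : ℕ} (hG : G.IsHomogeneous d)
    {s : Fin 3 → k} (hs : Node G s) {j : Fin 3} (hj : s j ≠ 0) :
    eval s (pderiv (j + 1) (pderiv (j + 1) G)) * eval s (pderiv (j + 2) (pderiv (j + 2) G)) -
    eval s (pderiv (j + 1) (pderiv (j + 2) G)) ^ 2 ≠ 0 := by
  intro h0
  obtain ⟨u, v, huv, e1, e2⟩ : ∃ u v : k, (u ≠ 0 ∨ v ≠ 0) ∧
      eval s (pderiv (j + 1) (pderiv (j + 1) G)) * u +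
        eval s (pderiv (j + 1) (pderiv (j + 2) G)) * v = 0 ∧
      eval s (pderiv (j + 1) (pderiv (j + 2) G)) * u +
        eval s (pderiv (j + 2) (pderiv (j + 2) G)) * v = 0 := by
    by_cases hA : eval s (pderiv (j + 1) (pderiv (j + 1) G)) = 0
    · by_cases hB : eval s (pderiv (j + 1) (pderiv (j + 2) G)) = 0
      · exact ⟨1, 0, Or.inl one_ne_zero, by rw [hA, hB]; ring, by rw [hB]; ring⟩
      · exfalso
        rw [hA] at h0
        apply hB
        have h1 : eval s (pderiv (j + 1) (pderiv (j + 2) G)) ^ 2 = 0 := by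
          linear_combination -h0
        exact pow_eq_zero_iff (two_ne_zero) |>.1 h1
    · exact ⟨-eval s (pderiv (j + 1) (pderiv (j + 2) G)), eval s (pderiv (j + 1) (pderiv (j + 1) G)),
        Or.inr hA, by ring, by linear_combination h0⟩
  have hne1 : j + 1 ≠ j := by fin_cases j <;> decide
  have hne2 : j + 2 ≠ j := by fin_cases j <;> decide
  have hne3 : j + 2 ≠ j + 1 := by fin_cases j <;> decide
  set y : Fin 3 → k := fun i => if i = j + 1 then u else if i = j + 2 then v else 0 with hy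
  have yj : y j = 0 := by
    rw [hy]; exact (if_neg hne1.symm).trans (if_neg hne2.symm)
  have ya : y (j + 1) = u := by rw [hy]; exact if_pos rfl
  have yb : y (j + 2) = v := by rw [hy]; exact (if_neg hne3).trans (if_pos rfl)
  have E1 : ∀ c, s j * eval s (pderiv j (pderiv c G)) +
      s (j + 1) * eval s (pderiv (j + 1) (pderiv c G)) +
      s (j + 2) * eval s (pderiv (j + 2) (pderiv c G)) = 0 := by
    intro c
    have h := eval_euler s (hG.pderiv (i := c))
    rw [sum3 _ j, hs.sing.2 c, mul_zero] at h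
    exact h
  have hab : eval s (pderiv (j + 2) (pderiv (j + 1) G)) = eval s (pderiv (j + 1) (pderiv (j + 2) G)) := by
    rw [pcomm]
  have hk : ∀ i, ∑ l, eval s (pderiv i (pderiv l G)) * y l = 0 := by
    intro i
    rw [sum3 _ j, yj, ya, yb, mul_zero, zero_add]
    have hi : i = j ∨ i = j + 1 ∨ i = j + 2 := three i j
    rcases hi with rfl | rfl | rfl
    · have h1 := E1 (i + 1)
      have h2 := E1 (i + 2)
      rw [hab] at h1
      have h3 : s i * (eval s (pderiv i (pderiv (i + 1) G)) * u +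
          eval s (pderiv i (pderiv (i + 2) G)) * v) = 0 := by
        linear_combination u * h1 + v * h2 - s (i + 1) * e1 - s (i + 2) * e2
      exact (mul_eq_zero.1 h3).resolve_left hj
    · exact e1
    · rw [hab]; exact e2
  obtain ⟨c, hc⟩ := hs.ker y hk
  have hc0 : c = 0 := by
    have h1 := congrFun hc j
    rw [yj, Pi.smul_apply, smul_eq_mul] at h1
    exact (mul_eq_zero.1 h1.symm).resolve_right hj
  rw [hc0, zero_smul] at hc
  rcases huv with h | h
  · exact h (by rw [← ya, hc]; rfl)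
  · exact h (by rw [← yb, hc]; rfl)

theorem dL (s : Fin 3 → k) (j : Fin 3) :
    pderiv (j + 1) (L s j (j + 1)) = C (s j) ∧ pderiv (j + 1) (L s j (j + 2)) = 0 ∧
    pderiv (j + 2) (L s j (j + 1)) = 0 ∧ pderiv (j + 2) (L s j (j + 2)) = C (s j) := by
  have hne1 : j + 1 ≠ j := by fin_cases j <;> decide
  have hne2 : j + 2 ≠ j := by fin_cases j <;> decide
  have hne3 : j + 2 ≠ j + 1 := by fin_cases j <;> decide
  unfold L
  refine ⟨?_, ?_, ?_, ?_⟩
  · rw [map_sub, pderiv_C_mul, pderiv_C_mul, pderiv_X_self, pderiv_X_of_ne hne1.symm]; ring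
  · rw [map_sub, pderiv_C_mul, pderiv_C_mul, pderiv_X_of_ne hne3, pderiv_X_of_ne hne1.symm]; ring
  · rw [map_sub, pderiv_C_mul, pderiv_C_mul, pderiv_X_of_ne hne3.symm, pderiv_X_of_ne hne2.symm]
    ring
  · rw [map_sub, pderiv_C_mul, pderiv_C_mul, pderiv_X_self, pderiv_X_of_ne hne2.symm]; ring

theorem L_eval (s : Fin 3 → k) (j c : Fin 3) : eval s (L s j c) = 0 := by
  unfold L
  rw [map_sub, map_mul, map_mul, eval_C, eval_C, eval_X, eval_X]
  ring

end NCH

open NCH in
theorem pf_NCH : T_NCH := by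
  intro k _ _ _ G d hd hG s hs j hj
  have hdet := det_ne hG hs hj
  have ha : pderiv (j + 1) G ∈ I s j := mem_I s j hj _ _ hG.pderiv (hs.sing.2 _)
  have hb : pderiv (j + 2) G ∈ I s j := mem_I s j hj _ _ hG.pderiv (hs.sing.2 _)
  have hG0 : eval s G = 0 := by
    have h := eval_euler s hG
    simp only [hs.sing.2, mul_zero, Finset.sum_const_zero] at h
    exact (mul_eq_zero.1 h.symm).resolve_left (Nat.cast_ne_zero.2 (by omega))
  have hG2 : G ∈ I s j * I s j := mem_I2 s j hj d G hG hG0 hs.sing.2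
  obtain ⟨haa, hab, hA⟩ := Ideal.mem_span_pair.1 ha
  obtain ⟨hba, hbb, hB⟩ := Ideal.mem_span_pair.1 hb
  set La := L s j (j + 1) with hLa
  set Lb := L s j (j + 2) with hLb
  obtain ⟨d1, d2, d3, d4⟩ := dL s j
  set D := haa * hbb - hab * hba with hD
  have eA1 : eval s (pderiv (j + 1) (pderiv (j + 1) G)) = s j * eval s haa := by
    rw [← hA, map_add, pderiv_mul, pderiv_mul, d1, d2]
    simp only [map_add, map_mul, L_eval, eval_C, mul_zero, map_zero, hLa, hLb]
    ring
  have eA2 : eval s (pderiv (j + 2) (pderiv (j + 1) G)) = s j * eval s hab := by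
    rw [← hA, map_add, pderiv_mul, pderiv_mul, d3, d4]
    simp only [map_add, map_mul, L_eval, eval_C, mul_zero, map_zero, hLa, hLb]
    ring
  have eB1 : eval s (pderiv (j + 1) (pderiv (j + 2) G)) = s j * eval s hba := by
    rw [← hB, map_add, pderiv_mul, pderiv_mul, d1, d2]
    simp only [map_add, map_mul, L_eval, eval_C, mul_zero, map_zero, hLa, hLb]
    ring
  have eB2 : eval s (pderiv (j + 2) (pderiv (j + 2) G)) = s j * eval s hbb := by
    rw [← hB, map_add, pderiv_mul, pderiv_mul, d3, d4]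
    simp only [map_add, map_mul, L_eval, eval_C, mul_zero, map_zero, hLa, hLb]
    ring
  have hDs : eval s D ≠ 0 := by
    intro h0
    apply hdet
    have h1 : eval s (pderiv (j + 1) (pderiv (j + 2) G)) ^ 2 =
        eval s (pderiv (j + 2) (pderiv (j + 1) G)) * eval s (pderiv (j + 1) (pderiv (j + 2) G)) := by
      rw [pcomm (j + 2) (j + 1), sq]
    rw [h1, eA1, eA2, eB1, eB2]
    rw [hD, map_sub, map_mul, map_mul] at h0
    linear_combination (s j) ^ 2 * h0
  set J := Ideal.span {pderiv (j + 1) G, pderiv (j + 2) G} with hJ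
  have hga : pderiv (j + 1) G ∈ J := Ideal.subset_span (Set.mem_insert _ _)
  have hgb : pderiv (j + 2) G ∈ J := Ideal.subset_span (Set.mem_insert_of_mem _ rfl)
  have hDI : Ideal.span {D} * I s j ≤ J := by
    rw [Ideal.mul_le]
    intro x hx y hy
    obtain ⟨c, rfl⟩ := Ideal.mem_span_singleton'.1 hx
    obtain ⟨p, q, rfl⟩ := Ideal.mem_span_pair.1 hy
    have h1 : D * La = hbb * pderiv (j + 1) G - hab * pderiv (j + 2) G := by
      rw [← hA, ← hB, hD]; ring
    have h2 : D * Lb = haa * pderiv (j + 2) G - hba * pderiv (j + 1) G := by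
      rw [← hA, ← hB, hD]; ring
    have h3 : c * D * (p * La + q * Lb) = c * p * (D * La) + c * q * (D * Lb) := by ring
    have h4 : c * D * (p * La + q * Lb) ∈ J := by
      rw [h3, h1, h2]
      refine Ideal.add_mem _ (Ideal.mul_mem_left _ _ ?_) (Ideal.mul_mem_left _ _ ?_)
      · exact Ideal.sub_mem _ (Ideal.mul_mem_left _ _ hga) (Ideal.mul_mem_left _ _ hgb)
      · exact Ideal.sub_mem _ (Ideal.mul_mem_left _ _ hgb) (Ideal.mul_mem_left _ _ hga)
    exact h4
  have hm : D * D * G ∈ J * J := by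
    have h1 : D * D * G ∈ (Ideal.span {D} * I s j) * (Ideal.span {D} * I s j) := by
      rw [mul_mul_mul_comm]
      exact Ideal.mul_mem_mul (Ideal.mul_mem_mul (Ideal.mem_span_singleton_self D)
        (Ideal.mem_span_singleton_self D)) hG2
    exact Ideal.mul_mono hDI hDI h1
  obtain ⟨r1, hr1, r2, hr2, hr⟩ : ∃ r1 ∈ J, ∃ r2 ∈ J,
      pderiv (j + 1) G * r1 + pderiv (j + 2) G * r2 = D * D * G := by
    have h1 : J * J = Ideal.span {pderiv (j + 1) G} * J ⊔ Ideal.span {pderiv (j + 2) G} * J := by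
      rw [← Ideal.sup_mul, ← Ideal.span_insert, hJ]
    rw [h1] at hm
    obtain ⟨a, ha1, b, hb1, hab1⟩ := Submodule.mem_sup.1 hm
    obtain ⟨r1, hr1, e1⟩ := Ideal.mem_span_singleton_mul.1 ha1
    obtain ⟨r2, hr2, e2⟩ := Ideal.mem_span_singleton_mul.1 hb1
    exact ⟨r1, hr1, r2, hr2, by rw [e1, e2, hab1]⟩
  refine ⟨D * D, C (d : k) * r1, C (d : k) * r2, ?_, ?_, Ideal.mul_mem_left _ _ hr1,
    Ideal.mul_mem_left _ _ hr2, hdet⟩
  · rw [map_mul]
    exact mul_ne_zero hDs hDs
  · linear_combination (C (d : k)) * (-hr)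

end Pool.Agent.H92.ND
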