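import Pool.Agent.H84.ND.Targets3
import Pool.Agent.H23.ND.IVA
import Pool.Agent.H51.ND.IDM
import Pool.Agent.H49.ND.RPM
import Pool.Agent.H23.ND.HDE
import Pool.Agent.H73.ND.HVN
import Pool.Agent.H23.ND.GRP
import Pool.Agent.H23.ND.DTD
import Pool.Agent.H48.ND.FPR
import Pool.Agent.H18.ND.BMN
import Pool.Agent.H55.ND.BDN
import Pool.Agent.H48.ND.NVM
import Pool.Agent.H48.ND.SMU
import Pool.Agent.H97.ND.SNV
import Pool.Agent.H17.ND.SEE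
import Pool.Agent.H95.ND.PSL
import Pool.Agent.H30.ND.PSB
import Pool.Agent.H2.ND.PSO
import Pool.Agent.H95.ND.LIA
import Pool.Agent.H49.ND.IDP
import Pool.Agent.H51.ND.LBA

/-! Assembly of part 3 (B): the lower bound T_LBA of part 3 from T_NCH and T_SME. -/

namespace Pool.Agent.H92.ND

open Pool.Agent.H92.ND

theorem b_IVA : T_IVA := Pool.Agent.H23.ND.pf_IVA
theorem b_IPR : T_IPR := Pool.Agent.H51.ND.pf_IPR
theorem b_IDM : T_IDM := Pool.Agent.H51.ND.pf_IDM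
theorem b_RPM : T_RPM := Pool.Agent.H49.ND.pf_RPM
theorem b_HVN : T_HVN := Pool.Agent.H73.ND.pf_HVN
theorem b_GRP : T_GRP := Pool.Agent.H23.ND.pf_GRP
theorem b_DTD : T_DTD := Pool.Agent.H23.ND.pf_DTD b_GRP
theorem b_FPR : T_FPR := Pool.Agent.H48.ND.pf_FPR b_GRP
theorem b_BMN : T_BMN := Pool.Agent.H18.ND.pf_BMN b_FPR
theorem b_BDN : T_BDN := Pool.Agent.H55.ND.pf_BDN b_FPR b_BMN
theorem b_NVM : T_NVM := Pool.Agent.H48.ND.pf_NVM
theorem b_SMU : T_SMU := Pool.Agent.H48.ND.pf_SMU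
theorem b_SNV : T_SNV := Pool.Agent.H97.ND.pf_SNV
theorem b_SSG : T_SSG := Pool.Agent.H17.ND.pf_SSG
theorem b_SEE : T_SEE := Pool.Agent.H17.ND.pf_SEE b_SMU b_SNV b_SSG
theorem b_PSL : T_PSL := Pool.Agent.H95.ND.pf_PSL
theorem b_PSB : T_PSB := Pool.Agent.H30.ND.pf_PSB b_IVA b_RPM
theorem b_PSO : T_PSO := Pool.Agent.H2.ND.pf_PSO b_DTD b_IVA b_RPM
theorem b_LIA : T_LIA := Pool.Agent.H95.ND.pf_LIA
theorem b_IDP : T_IDP := Pool.Agent.H49.ND.pf_IDP b_PSL b_PSB b_PSO b_IPR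

/-- The lower bound of part 3 (B), in the form of helper84, from the two inputs
of part 2 and part 1. -/
theorem lba (hNCH : Pool.Agent.H84.ND.T_NCH) (hSME : Pool.Agent.H84.ND.T_SME) :
    Pool.Agent.H84.ND.T_LBA :=
  Pool.Agent.H51.ND.pf_LBA b_BDN b_NVM b_SNV b_SEE (Pool.Agent.H23.ND.pf_HDE hNCH) b_HVN b_IDM
    b_LIA b_IDP hSME

end Pool.Agent.H92.ND
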