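import Pool.Agent.H84.ND.Targets2

/-!
# MP_70ba79_ag: normal crossings plane curves (board `ndc_modules`, part 3): lower bound for the
space of 1-jet sections, with the contribution of the nodes

`G` is a squarefree form of degree `d`. The sections of weight `i` are, up to the factor `G ^ (-i)`,
the naive ones `b(x, d G y - (∇G · y) x)` and, for each node `s`, the elements
`φ (h det(R, x, y)) ^ j (d G y_l - (∇G · y) x_l) ^ (i - j)`, where `R · ∇G = D G`, `R(s) = 0`,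
`D(s) ≠ 0`, `h` vanishes at the other nodes and `s_l ≠ 0`.
-/

set_option autoImplicit false

namespace Pool.Agent.H92.ND

open MvPolynomial SC Pool.Agent.H27.LV Pool.Agent.H84.SM Pool.Agent.H84.ND

/-! ### Definitions -/

section Defs

variable {k : Type} [Field k]

/-- the forms in three variables -/
abbrev A3 (k : Type) [Field k] : Type := MvPolynomial (Fin 3) k

/-- the variables -/
noncomputable def x3 : Fin 3 → A3 k := fun i => X i

/-- the gradient of `G` -/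
noncomputable def g3 (G : A3 k) : Fin 3 → A3 k := fun i => pderiv i G

/-- the ideal of the point `s` -/
noncomputable def Is (s : Fin 3 → k) : Ideal (A3 k) :=
  Ideal.span {f | ∃ i j, f = C (s i) * X j - C (s j) * X i}

/-- the coefficient of `γ ^ a` lies in the power number `a` of the ideal of `s` -/
def RP (s : Fin 3 → k) (P : Polynomial (A3 k)) : Prop := ∀ a, P.coeff a ∈ Is s ^ a

/-- numerators of naive sections: substitution `y ↦ d G y - (∇G · y) x` -/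
noncomputable def nv (G : A3 k) (d : ℕ) : A2 k →ₐ[k] A2 k :=
  aeval (Sum.elim xa (fun j => (d : A2 k) * gA G * ya j - fA G * xa j))

/-- data at a node -/
structure HD (G : A3 k) (s : Fin 3 → k) (ρ : ℕ) (R : Fin 3 → A3 k) (D : A3 k) : Prop where
  hR : ∀ i, (R i).IsHomogeneous (ρ + 1)
  hD : D.IsHomogeneous ρ
  eq : dp R (g3 G) = D * G
  z : ∀ i, eval s (R i) = 0
  ne : eval s D ≠ 0

/-- `det(R, x, y)` -/
noncomputable def sgA (R : Fin 3 → A3 k) : A2 k := dt (fun i => aeval xa (R i)) xa ya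

/-- the sections at a node, times `G ^ i` -/
noncomputable def el (G : A3 k) (d : ℕ) (l : Fin 3) (h : A3 k) (R : Fin 3 → A3 k) (i j : ℕ)
    (φ : A3 k) : A2 k :=
  aeval xa φ * (aeval xa h * sgA R) ^ j * nv G d (ya l) ^ (i - j)

/-- the substitution `y ↦ R + γ (e_l × ∇G)` -/
noncomputable def ps (G : A3 k) (l : Fin 3) (R : Fin 3 → A3 k) : A2 k →ₐ[k] Polynomial (A3 k) :=
  aeval (Sum.elim (fun i => Polynomial.C (X i)) (fun i => Polynomial.C (R i) +
    Polynomial.X * Polynomial.C (cr (Pi.single l 1) (g3 G) i)))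

/-- the unit `U = d R_l - D x_l` -/
noncomputable def un (d : ℕ) (l : Fin 3) (R : Fin 3 → A3 k) (D : A3 k) : A3 k :=
  (d : A3 k) * R l - D * X l

end Defs

/-! ### The ideal of a point -/

/-- IVA: a form which vanishes at `s` lies in the ideal of `s` -/
def T_IVA : Prop := ∀ (k : Type) [Field k] (s : Fin 3 → k), s ≠ 0 → ∀ (r : ℕ) (f : A3 k),
  f.IsHomogeneous r → eval s f = 0 → f ∈ Is s

/-- IPR: the powers of the ideal of a point are primary -/
def T_IPR : Prop := ∀ (k : Type) [Field k] (s : Fin 3 → k), s ≠ 0 → ∀ (m : ℕ) (u φ : A3 k),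
  eval s u ≠ 0 → u * φ ∈ Is s ^ m → φ ∈ Is s ^ m

/-- IDM: forms of degree `D` modulo the power `m` of the ideal of a point -/
def T_IDM : Prop := ∀ (k : Type) [Field k] (s : Fin 3 → k), s ≠ 0 → ∀ m D : ℕ, m ≤ D →
  ∃ F : Submodule k (A3 k), F ≤ homogeneousSubmodule (Fin 3) k D ∧ Module.Finite k F ∧
  Module.finrank k F = (m + 1).choose 2 ∧ ∀ f ∈ F, f ∈ Is s ^ m → f = 0

/-- RPM: products -/
def T_RPM : Prop := ∀ (k : Type) [Field k] (s : Fin 3 → k),
  (∀ P Q, RP s P → RP s Q → RP s (P + Q) ∧ RP s (P * Q)) ∧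
  (∀ f : A3 k, RP s (Polynomial.C f)) ∧
  ∀ f : A3 k, f ∈ Is s → RP s (Polynomial.X * Polynomial.C f)

/-! ### Data at the nodes -/

/-- HDE: data at a node exist -/
def T_HDE : Prop := ∀ (k : Type) [Field k] [IsAlgClosed k] [CharZero k]
  (G : A3 k) (d : ℕ), 1 ≤ d → G.IsHomogeneous d → ∀ s : Fin 3 → k, Node G s →
  ∃ (ρ : ℕ) (R : Fin 3 → A3 k) (D : A3 k), HD G s ρ R D

/-- HVN: a form which vanishes at given points and not at `s` -/
def T_HVN : Prop := ∀ (k : Type) [Field k] (T : Finset (Fin 3 → k)),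
  (∀ s ∈ T, ∀ s' ∈ T, s ≠ s' → cr s s' ≠ 0) → ∀ s ∈ T, ∃ (η : ℕ) (h : A3 k),
  h.IsHomogeneous η ∧ eval s h ≠ 0 ∧ ∀ s' ∈ T, s' ≠ s → eval s' h = 0

/-- GRP: the derivatives of a squarefree form have no common factor -/
def T_GRP : Prop := ∀ (k : Type) [Field k] [CharZero k] (G : A3 k) (d : ℕ), 1 ≤ d →
  G.IsHomogeneous d → Squarefree G → ∀ P : A3 k, Irreducible P → ∃ l, ¬ P ∣ pderiv l G

/-- DTD: two logarithmic vector fields -/
def T_DTD : Prop := ∀ (k : Type) [Field k] [CharZero k] (G : A3 k) (d : ℕ), 1 ≤ d →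
  G.IsHomogeneous d → Squarefree G → ∀ (R R' : Fin 3 → A3 k) (D D' : A3 k),
  dp R (g3 G) = D * G → dp R' (g3 G) = D' * G → G ∣ dt R' x3 R

/-! ### Naive sections -/

/-- FPR: `∇G · y` is prime -/
def T_FPR : Prop := ∀ (k : Type) [Field k] [CharZero k] (G : A3 k) (d : ℕ), 1 ≤ d →
  G.IsHomogeneous d → Squarefree G → Prime (fA G) ∧ ¬ fA G ∣ gA G

/-- BMN: the kernel of `bm` -/
def T_BMN : Prop := ∀ (k : Type) [Field k] [CharZero k] (G : A3 k) (d : ℕ), 1 ≤ d →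
  G.IsHomogeneous d → Squarefree G → ∀ b : A2 k, bm G d b = 0 ↔ fA G ∣ b

/-- BDN: dimension of the space of naive sections -/
def T_BDN : Prop := ∀ (k : Type) [Field k] [CharZero k] (G : A3 k) (d : ℕ), 1 ≤ d →
  G.IsHomogeneous d → Squarefree G → ∀ (e : ℤ) (i : ℕ),
  Module.Finite k (BS G d e i) ∧ Module.finrank k (BS G d e i) = bdim d e i

/-- NVM: naive sections and their numerators -/
def T_NVM : Prop := ∀ (k : Type) [Field k] [CharZero k] (G : A3 k) (d : ℕ), 1 ≤ d →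
  G.IsHomogeneous d → G ≠ 0 → ∀ (a i : ℕ) (b : A2 k), BH a i b →
  algebraMap (A2 k) (F2 k) (nv G d b) = ((d : F2 k) * gF G) ^ i * bm G d b

/-! ### Sections -/

/-- SMU: products of sections -/
def T_SMU : Prop := ∀ (k : Type) [Field k] (G : A3 k) (d i i' M M' : ℕ) (t t' : ℤ) (c c' : A2 k),
  IsSec G d i t M (Polynomial.C c) → IsSec G d i' t' M' (Polynomial.C c') →
  IsSec G d (i + i') (t + t') (M + M') (Polynomial.C (c * c'))

/-- SNV: naive sections are sections -/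
def T_SNV : Prop := ∀ (k : Type) [Field k] (G : A3 k) (d : ℕ), G.IsHomogeneous d →
  ∀ (a i : ℕ) (b : A2 k), BH a i b → IsSec G d i ((a : ℤ) + i) i (Polynomial.C (nv G d b))

/-- SSG: the section of a logarithmic vector field -/
def T_SSG : Prop := ∀ (k : Type) [Field k] (G : A3 k) (d : ℕ), G.IsHomogeneous d →
  ∀ (ρ : ℕ) (R : Fin 3 → A3 k) (D : A3 k), (∀ i, (R i).IsHomogeneous (ρ + 1)) →
  dp R (g3 G) = D * G → IsSec G d 1 ((ρ : ℤ) + 3 - d) 1 (Polynomial.C (sgA R))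

/-- SEE: the sections at a node are sections -/
def T_SEE : Prop := ∀ (k : Type) [Field k] (G : A3 k) (d : ℕ), G.IsHomogeneous d →
  ∀ (ρ η r i j : ℕ) (l : Fin 3) (R : Fin 3 → A3 k) (D h φ : A3 k),
  (∀ i, (R i).IsHomogeneous (ρ + 1)) → dp R (g3 G) = D * G → h.IsHomogeneous η →
  φ.IsHomogeneous r → j ≤ i →
  IsSec G d i ((r : ℤ) + j * ((η : ℤ) + ρ + 3 - d) + ((i : ℤ) - j)) i
    (Polynomial.C (el G d l h R i j φ))

/-! ### The substitution at a node -/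

/-- PSL: the sections at the node itself -/
def T_PSL : Prop := ∀ (k : Type) [Field k] (G : A3 k) (d : ℕ), G.IsHomogeneous d →
  ∀ (s : Fin 3 → k) (ρ : ℕ) (R : Fin 3 → A3 k) (D : A3 k), HD G s ρ R D →
  ∀ (l : Fin 3) (h φ : A3 k) (i j : ℕ), j ≤ i →
  ps G l R (el G d l h R i j φ) = Polynomial.C G ^ i *
    (Polynomial.C (φ * h ^ j * un d l R D ^ i) * Polynomial.X ^ j)

/-- PSB: the naive sections -/
def T_PSB : Prop := ∀ (k : Type) [Field k] (G : A3 k) (d : ℕ), G.IsHomogeneous d →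
  ∀ (s : Fin 3 → k) (ρ : ℕ) (R : Fin 3 → A3 k) (D : A3 k), Sing G s → HD G s ρ R D →
  ∀ (l : Fin 3) (a i : ℕ) (b : A2 k), BH a i b →
  ∃ P, ps G l R (nv G d b) = Polynomial.C G ^ i * P ∧ RP s P

/-- PSO: the sections at another node -/
def T_PSO : Prop := ∀ (k : Type) [Field k] [CharZero k] (G : A3 k) (d : ℕ), 1 ≤ d →
  G.IsHomogeneous d → Squarefree G →
  ∀ (s s' : Fin 3 → k) (ρ ρ' η : ℕ) (R R' : Fin 3 → A3 k) (D D' : A3 k), Sing G s →
  HD G s ρ R D → HD G s' ρ' R' D' → ∀ (l l' : Fin 3) (h φ : A3 k) (i j : ℕ), j ≤ i →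
  h.IsHomogeneous η → eval s h = 0 →
  ∃ P, ps G l R (el G d l' h R' i j φ) = Polynomial.C G ^ i * P ∧ RP s P

/-! ### The lower bound -/

/-- LIA: linear algebra -/
def T_LIA : Prop := ∀ (k V ι : Type) [Field k] [AddCommGroup V] [Module k V] [Fintype ι]
  (W : ι → Submodule k V) (W0 : Submodule k V) (V1 : Type) [AddCommGroup V1] [Module k V1]
  (F : ι → Submodule k V1) (g : ι → V1 →ₗ[k] V), Module.Finite k W0 →
  (∀ a, Module.Finite k (F a)) → (∀ a, ∀ f ∈ F a, g a f ∈ W a) →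
  (∀ (w : V) (f : ι → V1), w ∈ W0 → (∀ a, f a ∈ F a) → w + ∑ a, g a (f a) = 0 →
    ∀ a, f a = 0) →
  ∃ V' : Submodule k V, Module.Finite k V' ∧ V' ≤ W0 ⊔ ⨆ a, W a ∧
    Module.finrank k W0 + ∑ a, Module.finrank k (F a) ≤ Module.finrank k V'

/-- IDP: independence of the sections -/
def T_IDP : Prop := ∀ (k : Type) [Field k] [IsAlgClosed k] [CharZero k] (G : A3 k) (d : ℕ),
  1 ≤ d → G.IsHomogeneous d → Squarefree G → ∀ T : Finset (Fin 3 → k), (∀ s ∈ T, Sing G s) →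
  ∀ (l : (Fin 3 → k) → Fin 3) (ρ η : (Fin 3 → k) → ℕ) (R : (Fin 3 → k) → Fin 3 → A3 k)
  (D h : (Fin 3 → k) → A3 k), (∀ s ∈ T, s (l s) ≠ 0 ∧ HD G s (ρ s) (R s) (D s) ∧
    (h s).IsHomogeneous (η s) ∧ eval s (h s) ≠ 0 ∧ ∀ s' ∈ T, s' ≠ s → eval s' (h s) = 0) →
  ∀ (a i : ℕ) (b : A2 k), BH a i b → ∀ φ : (Fin 3 → k) → ℕ → A3 k,
  nv G d b + ∑ s ∈ T, ∑ j ∈ Finset.range i,
    el G d (l s) (h s) (R s) i (j + 1) (φ s (j + 1)) = 0 →
  ∀ s ∈ T, ∀ j, 1 ≤ j → j ≤ i → φ s j ∈ Is s ^ j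

/-- LBA: lower bound for the space of sections of degree 0 in `w` -/
def T_LBA : Prop := ∀ (k : Type) [Field k] [IsAlgClosed k] [CharZero k]
  (G : MvPolynomial (Fin 3) k) (d : ℕ), 2 ≤ d → G.IsHomogeneous d → Squarefree G →
  (∀ s, Sing G s → Node G s) → ∀ T : Finset (Fin 3 → k), (∀ s ∈ T, Sing G s) →
  (∀ s ∈ T, ∀ s' ∈ T, s ≠ s' → cr s s' ≠ 0) → ∀ i : ℕ, ∃ t0 : ℤ, ∀ t : ℤ, t0 ≤ t →
  ∃ V : Submodule k (F2 k), V ≤ SJ G d i t ∧ Module.Finite k V ∧
    bdim d (t - i) i + T.card * (i + 2).choose 3 ≤ Module.finrank k V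

end Pool.Agent.H92.ND
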